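import Mathlib
import Pool.Agent.Lib.MP_b4345b_gt.P37.Final

/-!
# A triangulation of the real projective space of dimension 6 with 37 vertices

The complex is the antipodal quotient of the boundary complex of a centrally symmetric simplicial
convex polytope of dimension 7 with 74 vertices.
-/

namespace Pool.Agent.Results.MP_b4345b_gt.RP6With37Vertices

/-- The antipodal equivalence relation on the unit sphere of Euclidean 7-space:
`x ~ y` iff `y = x` or `y = -x`. -/
def antipodal : Setoid (Metric.sphere (0 : EuclideanSpace ℝ (Fin 7)) 1) where
  r x y := y = x ∨ y = -x
  iseqv :=
    { refl := fun _ => Or.inl rfl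
      symm := by
        rintro x y (h | h)
        · exact Or.inl h.symm
        · exact Or.inr (by rw [h, neg_neg])
      trans := by
        rintro x y z (h | h) (h' | h')
        · exact Or.inl (by rw [h', h])
        · exact Or.inr (by rw [h', h])
        · exact Or.inr (by rw [h', h])
        · exact Or.inl (by rw [h', h, neg_neg]) }

/-- Real projective space of dimension 6: the quotient space of the unit sphere of Euclidean
7-space by the antipodal map, with the quotient topology. -/
abbrev RP6 : Type := Quotient antipodal

/-- There is a finite simplicial complex with exactly 37 vertices whose underlying space is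
homeomorphic to the real projective space of dimension 6. -/
theorem result : ∃ K : Geometry.SimplicialComplex ℝ (Fin 37 → ℝ),
    K.faces.Finite ∧ K.vertices.ncard = 37 ∧ Nonempty (K.space ≃ₜ RP6) :=
  Pool.Agent.Lib.MP_b4345b_gt.P37.main antipodal (fun _ _ => Iff.rfl)

end Pool.Agent.Results.MP_b4345b_gt.RP6With37Vertices
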